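import Mathlib
import Pool.Agent.R325.MVSPDefs
import Pool.Agent.R325.MVSPMain

set_option autoImplicit false

namespace Pool.Agent.Results.MP_7e38b0_nt.ValueSetPowers

open Polynomial Pool.Agent.R325.MVSP

/-- Full answer to Q1 (the assertion is true).  `K` is the field with `q = p ^ n` elements, `k0` its
subfield with `p ^ k` elements, `v` a divisor of `p ^ k - 1`, `U` a `k0`-subspace of `K` with
`1 ∈ U` and `#(U ^ v) > 2`. -/
theorem result (p n k : ℕ) (hp : p.Prime) (K : Type) [Field K] [Finite K]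
    (hK : Nat.card K = p ^ n) (k0 : Subfield K) (hk0 : Nat.card k0 = p ^ k)
    (v : ℕ) (hv1 : 1 ≤ v) (hv : v ∣ p ^ k - 1)
    (U : Submodule k0 K) (h1 : (1 : K) ∈ U) (h2 : 2 < (powSet (U : Set K) v).ncard) :
    ((¬ ∃ L : Subfield K, (L : Set K) = (U : Set K)) →
      MVSPs (powSet (U : Set K) v) = {F | ∃ f ∈ MVSPs (U : Set K), F = f ^ v}) ∧
    ((∃ L : Subfield K, (L : Set K) = (U : Set K)) → ∀ m e : ℕ, Module.finrank k0 U = m →
      Nat.card (Subfield.closure (powSet (U : Set K) v)) = p ^ e →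
      p ^ (m * k) - 1 ∣ (p ^ e - 1) * v ∧
      MVSPs (powSet (U : Set K) v) =
        {F | ∃ f ∈ MVSPs (Subfield.closure (powSet (U : Set K) v) : Set K),
          F = f ^ ((p ^ e - 1) * v / (p ^ (m * k) - 1))}) :=
  main p n k hp hK k0 hk0 v hv1 hv U h1 h2

end Pool.Agent.Results.MP_7e38b0_nt.ValueSetPowers
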